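import Pool.Agent.H.MP_643687_an.A

set_option autoImplicit false

open MeasureTheory
open scoped ContDiff

namespace Pool.Agent.Results.MP_643687_an.No

/-- `u` is a distributional solution of `(-Δ)^m u = |x|^σ u^p` on the real line. -/
def Sol (m : ℕ) (p σ : ℝ) (u : ℝ → ℝ) : Prop :=
  (∀ᵐ x, 0 ≤ u x) ∧ ¬ (∀ᵐ x, u x = 0) ∧ LocallyIntegrable u ∧
    LocallyIntegrable (fun x => |x| ^ σ * u x ^ p) ∧
    ∀ φ : ℝ → ℝ, ContDiff ℝ ∞ φ → HasCompactSupport φ →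
      ∫ x, u x * ((-1) ^ m * iteratedDeriv (2 * m) φ x) = ∫ x, |x| ^ σ * u x ^ p * φ x

theorem result :
    (∀ (m : ℕ) (p σ : ℝ), Odd m → ¬ ∃ u, Sol m p σ u) ∧
    ∃ (m : ℕ) (p σ : ℝ), 2 ≤ m ∧ 1 < p ∧ σ < -(2 * m) ∧
      0 < 1 - 2 * m - (2 * m + σ) / (p - 1) ∧ ¬ ∃ u, Sol m p σ u :=
  ⟨fun m p σ hm => Pool.Agent.H.MP_643687_an.main m hm p σ, 3, 2, -12, by norm_num, by norm_num,
    by norm_num, by norm_num, Pool.Agent.H.MP_643687_an.main 3 (by decide) 2 (-12)⟩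

end Pool.Agent.Results.MP_643687_an.No
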